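import Pool.Agent.K.MP_0c777d_lc.C0

set_option autoImplicit false

namespace Pool.Agent.Results.MP_0c777d_lc.CofinalityBound

theorem result (L K : Type) (hL : (2 : Cardinal) ≤ Cardinal.mk L)
    (hK : (1 : Cardinal) ≤ Cardinal.mk K)
    (hD : ∀ A : Set (ℕ → L),
        (∃ σ : List (K → L) → (K → L), ∀ f : ℕ → K → L,
            (∀ n : ℕ, f (2 * n) = σ (List.ofFn (fun i : Fin (2 * n) => f i.val))) →
            ∃ α : K, (fun n => f n α) ∈ A) ∨
        (∃ τ : List (K → L) → (K → L), ∀ f : ℕ → K → L,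
            (∀ n : ℕ, f (2 * n + 1) = τ (List.ofFn (fun i : Fin (2 * n + 1) => f i.val))) →
            ∀ α : K, (fun n => f n α) ∉ A)) :
    ∀ μ : Cardinal, Cardinal.aleph0 ≤ μ → μ ≤ max (Cardinal.mk L) Cardinal.aleph0 →
      μ ^ Cardinal.aleph0.{0} = 2 ^ μ → ((2 : Cardinal) ^ μ).ord.cof ≤ Cardinal.mk K := by
  intro μ h1 h2 h3
  obtain ⟨-, -, h4, h5⟩ := Pool.Agent.P.MP_0c777d_lc.lower_bounds L K hL hK hD
  rcases le_max_iff.1 h2 with h | h
  · exact h5 μ h1 h h3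
  · rw [le_antisymm h h1, Cardinal.two_power_aleph0]
    exact h4

end Pool.Agent.Results.MP_0c777d_lc.CofinalityBound
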