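import Pool.Agent.K.MP_0c777d_lc.C1

set_option autoImplicit false

open Pool.Agent.Lib.PosetForcing Pool.Agent.P.MP_0c777d_lc

namespace Pool.Agent.Results.MP_0c777d_lc.FailsInModel

theorem result :
    ∃ (M : Type 1) (mem : M → M → Prop), IsZFC mem ∧
      ∃ w E L : M,
        IsOmega mem w ∧ IsEvens mem E w ∧
        (∃ x y, mem x L ∧ mem y L ∧ x ≠ y) ∧
        Det mem w E L L := by
  obtain ⟨U, -⟩ := exists_gen (⊤ : PP (Set LL.{0}))
  refine ⟨Mod U, Mod.mem, isZFC U, omegaName.val U, evName.val U, (tyName LL.{0}).val U,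
    isOmega_omega U, isEvens_ev U, ?_, Free.det_self ?_ U⟩
  · refine ⟨_, _, elt_mem_tyName ⟨fun _ => true⟩ U, elt_mem_tyName ⟨fun _ => false⟩ U,
      fun h => ?_⟩
    simpa using congrFun (congrArg ULift.down (elt_inj h)) 0
  · rw [Cardinal.mk_set, Free.mk_LL]
    exact Cardinal.cantor _

end Pool.Agent.Results.MP_0c777d_lc.FailsInModel
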